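import Pool.Agent.helper93.PX.Spec

/-!
# Row RC: runs along a sequence
-/

set_option autoImplicit false

namespace Pool.Agent.PX

theorem RC : RC_stmt := by
  intro α i r hr L
  induction L with
  | nil =>
    intro n _
    simp [run]
  | cons a L ih =>
    intro n hn
    have h0 : a = α (n + i) := by
      have h1 := hn 0 (by simp)
      simpa using h1
    have h2 := ih (n + 1) (by
      intro k hk
      have h3 := hn (k + 1) (by simpa using hk)
      rw [List.getElem_cons_succ] at h3
      rw [h3]
      congr 1
      omega)
    have e1 : n + (a :: L).length = n + 1 + L.length := by
      rw [List.length_cons]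
      omega
    rw [e1, h2, hr n, run, h0]

end Pool.Agent.PX
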